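import Pool.Agent.Y227.MR.Final

set_option autoImplicit false

open Matrix NumberField Module Pool.Agent.Y227.MR

namespace Pool.Agent.Results.MP_5e5ff1_ag.ModularReduction

/-- `P` is idempotent and `Q` is diagonalisable with eigenvalues in `{0, 1, 2}`. -/
def IsModular {m : ℕ} (P Q : Matrix (Fin m) (Fin m) ℚ) : Prop :=
  P * P = P ∧ Q * (Q - 1) * (Q - 2) = 0

/-- The residue `P / 2` at `1`. -/
noncomputable def resOne {m : ℕ} (P : Matrix (Fin m) (Fin m) ℚ) : Matrix (Fin m) (Fin m) ℚ :=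
  (1 / 2 : ℚ) • P

/-- The residue `Q / 3 - P / 2` at `0`; the residue at infinity is `- Q / 3`. -/
noncomputable def resZero {m : ℕ} (P Q : Matrix (Fin m) (Fin m) ℚ) : Matrix (Fin m) (Fin m) ℚ :=
  (1 / 3 : ℚ) • Q - (1 / 2 : ℚ) • P

/-- Reduction of Grothendieck's `p`-curvature conjecture to systems of modular type over `ℚ`. -/
theorem result :
    (∀ (K : Type) [Field K] [NumberField K] (σ : K →+* ℂ) (r : ℕ)
      (b c : Matrix (Fin r) (Fin r) K),
      ∃ P Q : Matrix (Fin (6 * r * finrank ℚ K)) (Fin (6 * r * finrank ℚ K)) ℚ,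
        IsModular P Q ∧ (CondII b c → CondII (resZero P Q) (resOne P)) ∧
        (CondI (algebraMap ℚ ℂ) (resZero P Q) (resOne P) → CondI σ b c)) ∧
    ((∀ (K : Type) [Field K] [NumberField K] (σ : K →+* ℂ) (r : ℕ)
      (b c : Matrix (Fin r) (Fin r) K), CondII b c → CondI σ b c) ↔
    (∀ (m : ℕ) (P Q : Matrix (Fin m) (Fin m) ℚ), IsModular P Q →
      CondII (resZero P Q) (resOne P) →
        CondI (algebraMap ℚ ℂ) (resZero P Q) (resOne P))) := by
  refine ⟨fun K _ _ σ r b c => ?_, ?_, ?_⟩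
  · obtain ⟨P, Q, h1, h2, h3, h4⟩ := pointwise K σ r b c
    exact ⟨P, Q, ⟨h1, h2⟩, h3, h4⟩
  · intro h m P Q _ hII
    exact h ℚ (algebraMap ℚ ℂ) m _ _ hII
  · intro h K _ _ σ r b c hII
    obtain ⟨P, Q, h1, h2, h3, h4⟩ := pointwise K σ r b c
    exact h4 (h _ P Q ⟨h1, h2⟩ (h3 hII))

end Pool.Agent.Results.MP_5e5ff1_ag.ModularReduction
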