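import Pool.Agent.Y227.TP.Final

set_option autoImplicit false

open Pool.Agent.W432.PC Pool.Agent.W432.TC Pool.Agent.W432.HK Pool.Agent.Y227.SS
open Pool.Agent.TH571.GP Pool.Agent.Y227.TP

namespace Pool.Agent.Results.MP_5e5ff1_ag.SpectralDensity

universe u

/-- A uniform density theorem for all systems `f' = (b / t + c / (t - 1)) f` of rank `r` over orders
in number fields (domains `R` of characteristic zero, finitely generated and algebraic over `ℤ`).

For every `r` there are `ε > 0` and a finite set `𝒟` of torsion cosets in the torus of exponents,
all of whose points are the weights of semistable parabolic bundles of parabolic degree zero on the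
projective line over `ℂ`, and which have many relations on every spectral type (`Adapted`), with the
following property.

(1) If the exponents (the eigenvalues `lam 0`, `lam 1` of `b`, `c` and `phi` of `b + c`) are rational,
with a common denominator `N`, then either there are at least `ε φ(N)` residue classes modulo `N`
such that the `p`-curvature is nonzero at every closed point of residue characteristic `p`, for all
large primes `p` in these classes; or the exponents are on one of the cosets, all their multiples by
integers `a` prime to `N` are the weights of semistable parabolic bundles of parabolic degree zero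
and, if the system is irreducible (over all extensions), of stable ones.

(2) If for arbitrarily large `X` there are fewer than `ε π(X)` primes `p ≤ X` such that the
`p`-curvature is nonzero at some closed point of residue characteristic `p`, then `b`, `c` and
`b + c` are diagonalizable with rational eigenvalues and the second alternative of (1) holds. -/
theorem result (r : ℕ) :
    ∃ (ε : ℝ) (𝒟 : Finset (AddSubgroup (ExponentIndex 2 r → ℤ) × (ExponentIndex 2 r → ℚ))),
      0 < ε ∧ (∀ C ∈ 𝒟, Adapted C) ∧
      ∀ (R : Type u) [CommRing R] [IsDomain R] [CharZero R] [Algebra.FiniteType ℤ R]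
        [Algebra.IsAlgebraic ℤ R] (b c : Matrix (Fin r) (Fin r) R),
        (∀ lam phi N, HasExponents b (lam 0) → HasExponents c (lam 1) → HasExponents (b + c) phi →
          CommonDen lam phi N → BadClasses ![0, 1] ![b, c] N ε 1 ∨
            (ConjGood ![0, 1] ![b, c] lam phi N ∧ ∃ C ∈ 𝒟, InCoset C.1 C.2 (pt lam phi))) ∧
        (Few (BadPt ![0, 1] ![b, c]) ε → ∃ lam phi, DiagExps b (lam 0) ∧ DiagExps c (lam 1) ∧
          DiagExps (b + c) phi ∧ (∀ N, CommonDen lam phi N → ConjGood ![0, 1] ![b, c] lam phi N) ∧
          ∃ C ∈ 𝒟, InCoset C.1 C.2 (pt lam phi)) :=
  thrice r

end Pool.Agent.Results.MP_5e5ff1_ag.SpectralDensity
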